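import Pool.Agent.X288.UR.Main

/-!
# Pairs `(d, m)` for which the `m`-rank of the class groups of the number fields of degree `d` is unbounded
-/

set_option autoImplicit false

namespace Pool.Agent.Results.MP_176ace_nt.UnboundedPairs

open NumberField X288.UR

/-- `HasRank K m r` (`X288.UR.HasRank`): the class group of `K` contains a subgroup isomorphic to
`(ℤ/m)^r`.  `Unbounded d m` (`X288.UR.Unbounded`) is `S(d, m)`: for every `r` some number field `K`
of degree `d` has `HasRank K m r`.

(A) for every number field `k`, all `m, e ≥ 1` and all `r`, if `HasRank k m (r + [k:ℚ] e)` then `k`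
has an extension `K` of degree `e` with `HasRank K (m e) r`;
(B) `S(d, m)` implies `S(d e, m e)`, for `m, e ≥ 1`;
(C) `S(d, m)` holds for every even `d > 0` and every `m` dividing `2 d`;
(D) `S(d, m)` holds for all `d, m > 1` if it holds for all primes `d` and all `m > 1`;
(E) if `S(2, 2^k)` holds for all `k`, then `S(d, m)` holds for every even `d > 0` and every `m`
dividing `2^k d` for some `k`. -/
theorem result :
    (∀ (k : Type) [Field k] [NumberField k] (m e r : ℕ), 1 ≤ m → 1 ≤ e →
      HasRank k m (r + Module.finrank ℚ k * e) →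
      ∃ (K : Type) (_ : Field K) (_ : NumberField K) (_ : Algebra k K),
        Module.finrank k K = e ∧ HasRank K (m * e) r) ∧
    (∀ d m e : ℕ, 1 ≤ m → 1 ≤ e → Unbounded d m → Unbounded (d * e) (m * e)) ∧
    (∀ d m : ℕ, 0 < d → Even d → m ∣ 2 * d → Unbounded d m) ∧
    ((∀ d m : ℕ, 1 < d → 1 < m → Unbounded d m) ↔
      ∀ p m : ℕ, p.Prime → 1 < m → Unbounded p m) ∧
    ((∀ k : ℕ, Unbounded 2 (2 ^ k)) →
      ∀ d m k : ℕ, 0 < d → Even d → m ∣ 2 ^ k * d → Unbounded d m) := by
  refine ⟨fun k _ _ m e r hm he h => ext_rank k m e r hm he h,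
    fun d m e hm he h => mul_unbounded hm he h,
    fun d m hd hd2 hm => even_unbounded hd hd2 hm,
    ⟨fun h p m hp hm => h p m hp.one_lt hm, ?_⟩, ?_⟩
  · intro h d m hd hm
    obtain ⟨p, hp, e, rfl⟩ := Nat.exists_prime_and_dvd (ne_of_gt hd)
    have he : 1 ≤ e := by
      rcases Nat.eq_zero_or_pos e with h0 | h0
      · subst h0; simp at hd
      · exact h0
    exact dvd_unbounded (Nat.mul_pos (by omega) he) (Dvd.intro _ rfl)
      (mul_unbounded (by omega) he (h p m hp hm))
  · intro h d m k hd hd2 hm
    obtain ⟨e, rfl⟩ := hd2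
    have h1 : Unbounded (2 * e) (2 ^ (k + 1) * e) :=
      mul_unbounded (Nat.one_le_two_pow) (by omega) (h (k + 1))
    rw [← two_mul]
    exact dvd_unbounded (Nat.mul_pos (by positivity) (by omega)) (by
      rw [← two_mul] at hm
      have : 2 ^ (k + 1) * e = 2 ^ k * (2 * e) := by ring
      rwa [this]) h1

end Pool.Agent.Results.MP_176ace_nt.UnboundedPairs
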